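import Pool.Agent.helper84.DirOp

open MeasureTheory Set Filter Topology
open scoped ENNReal ContDiff

namespace Pool.Agent.Results.MP_f7df11_mp.DiracGroundStateRadial

noncomputable section

/-- Membership in `H^{1/2}(ℝ^d)` (Gagliardo seminorm), where `E` is `ℝ^d`. -/
def InHHalf {E : Type} [NormedAddCommGroup E] [MeasureSpace E] (d : ℕ) (ψ : E → ℂ) : Prop :=
  MemLp ψ 2 ∧ ∫⁻ x, ∫⁻ y, ENNReal.ofReal (‖ψ x - ψ y‖ ^ 2 / ‖x - y‖ ^ (d + 1)) < ⊤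

/-- `(D_m - V)(ψ₁,ψ₂) = (χ₁,χ₂)` on `ℝ` in the sense of distributions (the products `V ψ₁`,
`V ψ₂` being locally integrable), where `D_m (ψ₁,ψ₂) = (m ψ₁ + ψ₂', -ψ₁' - m ψ₂)`. -/
structure DiracEq1 (m : ℝ) (V : ℝ → ℝ) (ψ₁ ψ₂ χ₁ χ₂ : ℝ → ℂ) : Prop where
  loc₁ : LocallyIntegrable fun x => (V x : ℂ) * ψ₁ x
  loc₂ : LocallyIntegrable fun x => (V x : ℂ) * ψ₂ x
  eq₁ : ∀ φ : ℝ → ℂ, ContDiff ℝ ∞ φ → HasCompactSupport φ →
    ∫ x, ((m - V x) * ψ₁ x * φ x - ψ₂ x * deriv φ x) = ∫ x, χ₁ x * φ x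
  eq₂ : ∀ φ : ℝ → ℂ, ContDiff ℝ ∞ φ → HasCompactSupport φ →
    ∫ x, (ψ₁ x * deriv φ x + (-m - V x) * ψ₂ x * φ x) = ∫ x, χ₂ x * φ x

/-- `(D_m - V)(ψ₁,ψ₂) = (χ₁,χ₂)` on `ℝ² = ℂ` in the sense of distributions, where
`D_m (ψ₁,ψ₂) = (m ψ₁ - i(∂₁ - i∂₂)ψ₂, -i(∂₁ + i∂₂)ψ₁ - m ψ₂)`, that is
`D_m = -i(σ₁∂₁ + σ₂∂₂) + m σ₃`; `∂₁ φ = fderiv ℝ φ z 1` and `∂₂ φ = fderiv ℝ φ z I`. -/
structure DiracEq2 (m : ℝ) (V : ℂ → ℝ) (ψ₁ ψ₂ χ₁ χ₂ : ℂ → ℂ) : Prop where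
  eq₁ : ∀ φ : ℂ → ℂ, ContDiff ℝ ∞ φ → HasCompactSupport φ →
    ∫ z, ((m - V z) * ψ₁ z * φ z + Complex.I * ψ₂ z *
      (fderiv ℝ φ z 1 - Complex.I * fderiv ℝ φ z Complex.I)) = ∫ z, χ₁ z * φ z
  eq₂ : ∀ φ : ℂ → ℂ, ContDiff ℝ ∞ φ → HasCompactSupport φ →
    ∫ z, ((-m - V z) * ψ₂ z * φ z + Complex.I * ψ₁ z *
      (fderiv ℝ φ z 1 + Complex.I * fderiv ℝ φ z Complex.I)) = ∫ z, χ₂ z * φ z

/-- `T` is a self-adjoint realisation of `D_m - V` in `L²(ℝ;ℂ²)`: a self-adjoint operator which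
acts as the differential expression `D_m - V`. (No condition on the domain is imposed; in
particular the realisation with domain in `H^{1/2}` is covered.) -/
structure IsRealisation1 (m : ℝ) (V : ℝ → ℝ)
    (T : WithLp 2 (Lp ℂ 2 (volume : Measure ℝ) × Lp ℂ 2 (volume : Measure ℝ)) →ₗ.[ℂ]
      WithLp 2 (Lp ℂ 2 (volume : Measure ℝ) × Lp ℂ 2 (volume : Measure ℝ))) : Prop where
  selfAdjoint : IsSelfAdjoint T
  acts : ∀ Ψ : T.domain, DiracEq1 m V Ψ.1.fst Ψ.1.snd (T Ψ).fst (T Ψ).snd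

/-- `T` is the distinguished self-adjoint realisation of `D_m - V` in `L²(ℝ²;ℂ²)`: a self-adjoint
operator which acts as the differential expression `D_m - V` and whose domain is contained
in `H^{1/2}`. -/
structure IsRealisation2 (m : ℝ) (V : ℂ → ℝ)
    (T : WithLp 2 (Lp ℂ 2 (volume : Measure ℂ) × Lp ℂ 2 (volume : Measure ℂ)) →ₗ.[ℂ]
      WithLp 2 (Lp ℂ 2 (volume : Measure ℂ) × Lp ℂ 2 (volume : Measure ℂ))) : Prop where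
  selfAdjoint : IsSelfAdjoint T
  acts : ∀ Ψ : T.domain, DiracEq2 m V Ψ.1.fst Ψ.1.snd (T Ψ).fst (T Ψ).snd
  half : ∀ Ψ : T.domain, InHHalf 2 Ψ.1.fst ∧ InHHalf 2 Ψ.1.snd

section
variable {H : Type} [AddCommGroup H] [Module ℂ H]

/-- `Ψ` is an eigenvector of `T` with eigenvalue `l`. -/
def IsEigenvector (T : H →ₗ.[ℂ] H) (l : ℝ) (Ψ : H) : Prop :=
  Ψ ≠ 0 ∧ ∃ h : Ψ ∈ T.domain, T ⟨Ψ, h⟩ = (l : ℂ) • Ψ

/-- `l` is the lowest eigenvalue of `T` in the gap `(-m,m)`. -/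
def IsLambdaD (m : ℝ) (T : H →ₗ.[ℂ] H) (l : ℝ) : Prop :=
  l ∈ Ioo (-m) m ∧ (∃ Ψ, IsEigenvector T l Ψ) ∧
    ∀ l' ∈ Ioo (-m) m, (∃ Ψ, IsEigenvector T l' Ψ) → l ≤ l'

end

section
variable {E : Type} [NormedAddCommGroup E] [MeasureSpace E]

/-- `V` is radial: (almost everywhere) a function of `‖x‖`. -/
def IsRadial (V : E → ℝ) : Prop := ∃ v : ℝ → ℝ, V =ᵐ[volume] fun x => v ‖x‖

/-- `V` is radially nonincreasing. -/
def IsRadialNonincreasing (V : E → ℝ) : Prop :=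
  ∃ v : ℝ → ℝ, AntitoneOn v (Ioi 0) ∧ V =ᵐ[volume] fun x => v ‖x‖

/-- The conclusion: the eigenspace of `T` for the eigenvalue `l` is one-dimensional, spanned by a
spinor `Φ` whose upper component is a continuous, strictly positive function `f` of `‖x‖`, and
`f` is nonincreasing if `V` is radially nonincreasing. -/
structure RadialGroundState (V : E → ℝ)
    (T : WithLp 2 (Lp ℂ 2 (volume : Measure E) × Lp ℂ 2 (volume : Measure E)) →ₗ.[ℂ]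
      WithLp 2 (Lp ℂ 2 (volume : Measure E) × Lp ℂ 2 (volume : Measure E))) (l : ℝ) : Prop where
  out : ∃ (Φ : WithLp 2 (Lp ℂ 2 (volume : Measure E) × Lp ℂ 2 (volume : Measure E)))
    (f : ℝ → ℝ), (∀ Ψ, IsEigenvector T l Ψ ↔ ∃ c : ℂ, c ≠ 0 ∧ Ψ = c • Φ) ∧
    ContinuousOn f (Ici 0) ∧ (∀ r, 0 ≤ r → 0 < f r) ∧
    (Φ.fst =ᵐ[volume] fun x => (f ‖x‖ : ℂ)) ∧
    (IsRadialNonincreasing V → AntitoneOn f (Ici 0))

end

open Pool.Agent.helper84.Dir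

lemma profile_of_anti {E : Type} [NormedAddCommGroup E] [MeasureSpace E]
    (h0 : ∀ᵐ x : E, x ≠ 0) {V : E → ℝ} (hV0 : ∀ᵐ x, 0 ≤ V x)
    (h : IsRadialNonincreasing V) :
    ∃ v : ℝ → ℝ, Measurable v ∧ (∀ r, 0 ≤ v r) ∧ (V =ᵐ[volume] fun x => v ‖x‖) ∧
      AntitoneOn v (Ioi 0) := by
  obtain ⟨v₀, ha, hv₀⟩ := h
  obtain ⟨v, h1, h2, h3, h4⟩ := anti_profile ha
  refine ⟨v, h1, h2, ?_, h3⟩
  filter_upwards [hv₀, hV0, h0] with x h6 h7 h8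
  rw [h4 _ (norm_pos_iff.2 h8), ← h6, max_eq_left h7]

lemma finish {E : Type} [NormedAddCommGroup E] [MeasureSpace E] {V : E → ℝ}
    {T : Sp E →ₗ.[ℂ] Sp E} {l : ℝ} {f : ℝ → ℝ} {u w : E → ℂ}
    (hex : ∃ Ψ, IsEigenvector T l Ψ)
    (h : ∀ Ψ, IsEigenvector T l Ψ → ∃ c : ℂ, c ≠ 0 ∧
      (Ψ.fst =ᵐ[volume] fun z => c * u z) ∧ (Ψ.snd =ᵐ[volume] fun z => c * w z))
    (hu : ∀ x, u x = (f ‖x‖ : ℂ)) (hfc : ContinuousOn f (Ici 0)) (hf : ∀ r, 0 ≤ r → 0 < f r)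
    (hanti : IsRadialNonincreasing V → AntitoneOn f (Ici 0)) : RadialGroundState V T l := by
  obtain ⟨Ψ₀, h₀⟩ := hex
  obtain ⟨c₀, hc₀, h₁, h₂⟩ := h Ψ₀ h₀
  refine ⟨c₀⁻¹ • Ψ₀, f, fun Ψ => ⟨fun hΨ => ?_, ?_⟩, hfc, hf, ?_, hanti⟩
  · obtain ⟨c, hc, h₃, h₄⟩ := h Ψ hΨ
    refine ⟨c, hc, ?_⟩
    have e : Ψ = (c / c₀) • Ψ₀ := proportional hc₀ h₁ h₂ h₃ h₄
    rw [e, smul_smul, div_eq_mul_inv]
  · rintro ⟨c, hc, rfl⟩
    obtain ⟨hne, hd, he⟩ := h₀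
    have ha : c * c₀⁻¹ ≠ 0 := mul_ne_zero hc (inv_ne_zero hc₀)
    rw [smul_smul]
    refine ⟨smul_ne_zero ha hne, T.domain.smul_mem _ hd, ?_⟩
    have e1 := T.map_smul (c * c₀⁻¹) ⟨Ψ₀, hd⟩
    have e2 : (c * c₀⁻¹) • (⟨Ψ₀, hd⟩ : T.domain) = ⟨(c * c₀⁻¹) • Ψ₀, T.domain.smul_mem _ hd⟩ := rfl
    rw [e2] at e1
    rw [e1, he, smul_smul, smul_smul, mul_comm]
  · have a1 : (c₀⁻¹ • Ψ₀).fst =ᵐ[volume] fun z => c₀⁻¹ * Ψ₀.fst z :=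
      (smul_ae (Ψ := Ψ₀) (Φ := c₀⁻¹ • Ψ₀) rfl).1
    filter_upwards [a1, h₁] with x h3 h4
    rw [h3, h4, hu]
    field_simp

/-- **Answer to Q1 and Q2 (both affirmative).** For every `m > 0` there is `ε > 0` such that for
`d = 1` and every finite `p ≥ 1`, and for `d = 2` and every finite `p ≥ 2`, every radial
nonnegative `V ∈ L^p(ℝ^d)` with `‖V‖_{L^p} < ε` and every self-adjoint realisation `T` of
`D_m - V` (with domain in `H^{1/2}` if `d = 2`): if `l` is the lowest eigenvalue of `T` in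
`(-m,m)`, then `l` is simple and the upper component of its eigenfunctions is, up to a constant, a
positive continuous function of `|x|`, nonincreasing in `|x|` if `V` is. -/
theorem result (m : ℝ) (hm : 0 < m) : ∃ ε : ℝ, 0 < ε ∧
    (∀ p : ℝ≥0∞, 1 ≤ p → p ≠ ⊤ → ∀ V : ℝ → ℝ, MemLp V p → (∀ᵐ x, 0 ≤ V x) → IsRadial V →
      eLpNorm V p volume < ENNReal.ofReal ε →
      ∀ T, IsRealisation1 m V T → ∀ l, IsLambdaD m T l → RadialGroundState V T l) ∧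
    (∀ p : ℝ≥0∞, 2 ≤ p → p ≠ ⊤ → ∀ V : ℂ → ℝ, MemLp V p → (∀ᵐ x, 0 ≤ V x) → IsRadial V →
      eLpNorm V p volume < ENNReal.ofReal ε →
      ∀ T, IsRealisation2 m V T → ∀ l, IsLambdaD m T l → RadialGroundState V T l) := by
  obtain ⟨η, hη, h25, h3⟩ := exists_eta hm
  refine ⟨η, hη.pos, ?_, ?_⟩
  · intro p hp hpt V hV hV0 hrad hε T hT l hl
    obtain ⟨hlm, hex, hlow⟩ := hl
    have hla : |l| < m := abs_lt.2 ⟨hlm.1, hlm.2⟩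
    have hlow' : ∀ l' : ℝ, -m < l' → l' < l → ∀ Ψ : T.domain,
        T Ψ = (l' : ℂ) • (Ψ : Sp ℝ) → (Ψ : Sp ℝ) = 0 := by
      intro l' h1 h2 Ψ hΨ
      by_contra hne
      exact absurd (hlow l' ⟨h1, h2.trans hlm.2⟩ ⟨Ψ, hne, Ψ.2, hΨ⟩) (not_le.2 h2)
    have core : ∀ v : ℝ → ℝ, Measurable v → (∀ r, 0 ≤ v r) → (V =ᵐ[volume] fun x => v ‖x‖) →
        (IsRadialNonincreasing V → AntitoneOn v (Ioi 0)) → RadialGroundState V T l := by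
      intro v hvm hv0 hVv hva
      obtain ⟨hpot, hI⟩ := red1 hp hpt hη.pos hε.le hvm hv0 hVv
      obtain ⟨hF, hΨ⟩ := op1 hm hη h25 h3 hpot hI hVv T hT.selfAdjoint
        (fun Ψ => (hT.acts Ψ).loc₁) (fun Ψ => (hT.acts Ψ).loc₂)
        (fun Ψ => (hT.acts Ψ).eq₁) (fun Ψ => (hT.acts Ψ).eq₂) hla hlow'
      have h : ∀ Ψ, IsEigenvector T l Ψ → ∃ c : ℂ, c ≠ 0 ∧
          (Ψ.fst =ᵐ[volume] fun z => c * upL m l v z) ∧
          (Ψ.snd =ᵐ[volume] fun z => c * loL m l v z) := by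
        rintro Ψ ⟨hne, hd, he⟩
        obtain ⟨c, hc1, hc2⟩ := hΨ ⟨Ψ, hd⟩ he
        exact ⟨c, coef_ne_zero hne hc1 hc2, hc1, hc2⟩
      refine finish hex h (f := FF 0 m l v) (fun x => rfl) (FF_cont hpot hm hla.le) hF fun ha => ?_
      obtain ⟨Ψ₀, h₀⟩ := hex
      obtain ⟨c, hc, hc1, -⟩ := h Ψ₀ h₀
      exact FF_anti hpot hm hla (hva ha) hF (FF_sq_int1 hc (Lp.memLp _) hc1)
    by_cases hanti : IsRadialNonincreasing V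
    · obtain ⟨v, hvm, hv0, hVv, hva⟩ :=
        profile_of_anti (by simp [ae_iff, measure_singleton]) hV0 hanti
      exact core v hvm hv0 hVv fun _ => hva
    · obtain ⟨v₀, hv₀⟩ := hrad
      obtain ⟨v, hvm, hv0, hVv⟩ := rad1 hV.1 hV0 hv₀
      exact core v hvm hv0 hVv fun h => absurd h hanti
  · intro p hp hpt V hV hV0 hrad hε T hT l hl
    obtain ⟨hlm, hex, hlow⟩ := hl
    have hla : |l| < m := abs_lt.2 ⟨hlm.1, hlm.2⟩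
    have hlow' : ∀ l' : ℝ, -m < l' → l' < l → ∀ Ψ : T.domain,
        T Ψ = (l' : ℂ) • (Ψ : Sp ℂ) → (Ψ : Sp ℂ) = 0 := by
      intro l' h1 h2 Ψ hΨ
      by_contra hne
      exact absurd (hlow l' ⟨h1, h2.trans hlm.2⟩ ⟨Ψ, hne, Ψ.2, hΨ⟩) (not_le.2 h2)
    have core : ∀ v : ℝ → ℝ, Measurable v → (∀ r, 0 ≤ v r) → (V =ᵐ[volume] fun x => v ‖x‖) →
        (IsRadialNonincreasing V → AntitoneOn v (Ioi 0)) → RadialGroundState V T l := by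
      intro v hvm hv0 hVv hva
      obtain ⟨hpot, hI⟩ := red2 hp hpt hη.pos hε.le hvm hv0 hVv
      obtain ⟨hF, hΨ⟩ := op2 hm hη h25 h3 hpot hI hVv T hT.selfAdjoint
        (fun Ψ => loc_mul hp hV (Lp.memLp _)) (fun Ψ => loc_mul hp hV (Lp.memLp _))
        (fun Ψ => (hT.acts Ψ).eq₁) (fun Ψ => (hT.acts Ψ).eq₂)
        (fun Ψ => (hT.half Ψ).1.2) hla hlow'
      have h : ∀ Ψ, IsEigenvector T l Ψ → ∃ c : ℂ, c ≠ 0 ∧
          (Ψ.fst =ᵐ[volume] fun z => c * up m l v z) ∧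
          (Ψ.snd =ᵐ[volume] fun z => c * lo m l v z) := by
        rintro Ψ ⟨hne, hd, he⟩
        obtain ⟨c, hc1, hc2⟩ := hΨ ⟨Ψ, hd⟩ he
        exact ⟨c, coef_ne_zero hne hc1 hc2, hc1, hc2⟩
      refine finish hex h (f := FF 1 m l v) (fun x => rfl) (FF_cont hpot hm hla.le) hF fun ha => ?_
      obtain ⟨Ψ₀, h₀⟩ := hex
      obtain ⟨c, hc, hc1, -⟩ := h Ψ₀ h₀
      exact FF_anti hpot hm hla (hva ha) hF (FF_sq_int2 hc (Lp.memLp _) hc1)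
    by_cases hanti : IsRadialNonincreasing V
    · obtain ⟨v, hvm, hv0, hVv, hva⟩ :=
        profile_of_anti (by simp [ae_iff, measure_singleton]) hV0 hanti
      exact core v hvm hv0 hVv fun _ => hva
    · obtain ⟨v₀, hv₀⟩ := hrad
      obtain ⟨v, hvm, hv0, hVv⟩ := rad2 hV.1 hV0 hv₀
      exact core v hvm hv0 hVv fun h => absurd h hanti

end

end Pool.Agent.Results.MP_f7df11_mp.DiracGroundStateRadial
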